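import Pool.Agent.H.MP_79f629_co.E

namespace Pool.Agent.Results.MP_79f629_co.Limit
open Filter Topology

/-- `t` arises from `s` by bumping a true fixed point `i` (positions counted from 1). -/
def Bump (s t : List ℕ) : Prop :=
  ∃ i, 2 ≤ i ∧ s[i - 1]? = some i ∧ t = i :: s.eraseIdx (i - 1)

/-- The fixed point forest on the permutations of `1, ..., n` written as words. -/
def forest (n : ℕ) : SimpleGraph {s : List ℕ // s.Perm (List.range' 1 n)} :=
  SimpleGraph.fromRel fun s t => Bump s.1 t.1

theorem result :
    Tendsto (fun n : ℕ =>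
      (({s | (forest n).Reachable ⟨List.range' 1 n, List.Perm.refl _⟩ s}.ncard : ℕ) : ℝ) /
        ((n - 1).factorial : ℝ)) atTop (𝓝 1) := by
  refine Pool.Agent.H.MP_79f629_co.main.congr fun n => ?_
  congr 2
  rw [← Set.ncard_coe_finset, ← Set.ncard_image_of_injective _ Subtype.val_injective]
  congr 1
  ext s
  constructor
  · intro hs
    simp only [Pool.Agent.H.MP_79f629_co.Tall, Finset.coe_filter, Set.mem_ofPred_eq,
      Pool.Agent.H.MP_79f629_co.mem_Sp] at hs
    obtain ⟨hP, j, hj⟩ := hs
    refine ⟨⟨s, hP⟩, ?_, rfl⟩
    simp only [Set.mem_ofPred_eq]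
    induction j generalizing s with
    | zero =>
      obtain rfl : s = List.range' 1 n := hj
      exact SimpleGraph.Reachable.refl _
    | succ j ih =>
      have hP' := Pool.Agent.H.MP_79f629_co.P.step hP
      refine (ih _ hP' hj).trans ?_
      cases s with
      | nil => exact SimpleGraph.Reachable.refl _
      | cons k l =>
        have h1 := (Pool.Agent.H.MP_79f629_co.P.mem hP k).1 (by simp)
        have h2 := Pool.Agent.H.MP_79f629_co.P.len hP
        simp only [List.length_cons] at h2
        by_cases he : Pool.Agent.H.MP_79f629_co.step (k :: l) = k :: l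
        · exact (Subtype.ext he : (⟨_, hP'⟩ : {s : List ℕ // s.Perm (List.range' 1 n)}) =
            ⟨_, hP⟩) ▸ SimpleGraph.Reachable.refl _
        · apply SimpleGraph.Adj.reachable
          rw [forest, SimpleGraph.fromRel_adj]
          refine ⟨fun h => he (congrArg Subtype.val h), Or.inl ⟨k, ?_, ?_, ?_⟩⟩
          · by_contra hk
            obtain rfl : k = 1 := by omega
            exact he rfl
          · simp only [Pool.Agent.H.MP_79f629_co.step]
            rw [List.getElem?_insertIdx_self, if_pos (by omega)]
          · simp only [Pool.Agent.H.MP_79f629_co.step]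
            rw [List.eraseIdx_insertIdx_self]
  · rintro ⟨t, ht, rfl⟩
    rw [← Pool.Agent.H.MP_79f629_co.comp_eq]
    simp only [Set.mem_ofPred_eq, SimpleGraph.reachable_iff_reflTransGen] at ht ⊢
    induction ht with
    | refl => exact Relation.EqvGen.refl _
    | tail _ h ih =>
      rw [forest, SimpleGraph.fromRel_adj] at h
      rcases h.2 with h | h
      · exact Relation.EqvGen.trans _ _ _ ih (Relation.EqvGen.rel _ _ h)
      · exact Relation.EqvGen.trans _ _ _ ih (Relation.EqvGen.symm _ _ (Relation.EqvGen.rel _ _ h))

end Pool.Agent.Results.MP_79f629_co.Limit
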